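import Pool.Agent.D0H93.VH.Loci

/-!
# The variational Hodge conjecture holds on each of finitely many pieces of the base

Let `X → S` be a smooth projective family, `V = ℚ ^ ι` the cohomology `H^w` of the members, trivialised
over the universal covering `B` of `S(ℂ)`, with the Hodge structures `S b`, a flat polarization `Q` and
the monodromy `ρ` (`Variation`), and let `alg b n` be the algebraic endomorphisms of `V^{⊗n}` at
`b ∈ B`, given by algebraic cycles on `X_b^{2n}` (`CycleClasses`; the class of the polarization is
supposed to be algebraic). The main example is `H¹` of an abelian scheme `A → S`; then all
hypotheses are theorems.

`FlatHodge V n` are the endomorphisms of `V^{⊗n}` which are flat on a finite covering of `S` and Hodge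
classes on the members. A class is weakly algebraic at `b` if it is fixed by the identity component of
the group which fixes all algebraic classes at `b`. `C.EndAlg b` says that this holds for the flat
endomorphisms of `V` itself, `n = 1` (for abelian schemes this is a theorem for all `b`). `Central V c`
says that `c` is invariant under the skew part of the centre of the algebra of the flat endomorphisms;
if there are no factors of type IV then all classes are `Central`.

**Theorem.** There are a number `r` and a map `τ : B → {1, ..., r}` such that:

1. If `b` and `b'` are members with `C.EndAlg` and `τ b = τ b'` then the variational Hodge conjecture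
   holds from `b` to `b'` and from `b'` to `b`, for all tensor powers at the same time: the flat
   `Central` classes which are weakly algebraic at `b` are the ones which are weakly algebraic at
   `b'`. So the base is the union of `r` pieces, and on each of them the variational Hodge
   conjecture is true.
2. There are infinitely many flat Hodge classes `c` on the powers of the family, but only finitely many
   sets occur as the locus `{b | c is weakly algebraic on the member at b}`.
3. Each set `X` of members contains at most `r` members such that a flat `Central` class of any tensor
   power, which is weakly algebraic on these members, is weakly algebraic on all members in `X`.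
4. If there are no factors of type IV, all classes are `Central`.

The variational Hodge conjecture says that `r = 1` is possible. It was known that each locus in 2 is a
countable union of closed algebraic subsets.

Ideas of the proof. Let `H = ann (FlatHodge V)` and `L_b = ann (C.On {b}) ⊇ H` be the Lie algebras of the
groups which fix all flat Hodge classes, and those which are weakly algebraic at `b`; by the double
annihilator theorem the classes are determined by the algebras. Fix one `b₀`. The Weil operator
of `b₀` fixes all flat Hodge classes, so ALL the real Lie algebras `L_b` are stable under the
transposition for one positive definite form, the form of the polarization at `b₀`. Therefore their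
orthogonal projectors `P_b` lie in a compact set. If there were infinitely many `L_b` (up to the skew
centre), they had an accumulation point `P`, with image `L`, and the differences `P_b - P`, divided by
their norms, had a limit `ψ ≠ 0`. Then `ψ` is a cocycle of `L` with values in `L^⊥` and vanishes on `H`.
The Casimir operator of `L` for the trace form is a sum of squares for the positive definite form, so its
kernel is the commutant of `L`. By the usual computation `[x, m] = Ω(ψ x)` with
`m = ∑ [e_iᵀ, ψ e_i]`; since `ψ = 0` on `H` the element `m` commutes with `H`, so it is a (real)
flat endomorphism, and as these are algebraic at all `b` it commutes with `L`. Hence `Ω(ψ x) = 0`, so `ψ x`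
is in the centre and orthogonal to `L`, so `ψ = 0`.
-/

set_option autoImplicit false

namespace Pool.Agent.Results.MP_e9c0f3_ag.FinitelyManyTypes

open Pool.Agent.D0H93.MT Pool.Agent.D0H93.VH

/-- **The variational Hodge conjecture holds on each of finitely many pieces of the base.** -/
theorem result {ι : Type} [Fintype ι] [DecidableEq ι] [Nonempty ι] {w : ℤ} {B Γ : Type} [Group Γ]
    [Nonempty B] {V : Variation ι w B Γ} (C : CycleClasses V) :
    ∃ (r : ℕ) (τ : B → Fin r),
      (∀ b b', C.EndAlg b → C.EndAlg b' → τ b = τ b' →
        ∀ n (c : Matrix (Fin n → ι) (Fin n → ι) ℚ), Central V c →
          (C.FlatAlgebraic b n c ↔ C.FlatAlgebraic b' n c)) ∧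
      {A : Set B | ∃ (n : ℕ) (c : Matrix (Fin n → ι) (Fin n → ι) ℚ), FlatHodge V n c ∧ Central V c ∧
        A = {b | C.EndAlg b ∧ C.WeaklyAlgebraic b n c}}.Finite ∧
      (∀ X : Set B, (∀ b ∈ X, C.EndAlg b) → ∃ T : Finset B, (T : Set B) ⊆ X ∧ T.card ≤ r ∧
        ∀ n (c : Matrix (Fin n → ι) (Fin n → ι) ℚ), Central V c →
          C.On (T : Set B) n c → C.On X n c) ∧
      (NoTypeIV (ann (FlatHodge V)) V.Q →
        ∀ n (c : Matrix (Fin n → ι) (Fin n → ι) ℚ), Central V c) :=
  types_main C

end Pool.Agent.Results.MP_e9c0f3_ag.FinitelyManyTypes
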