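import Pool.Agent.D0H93.VH.Main

/-!
# The variational Hodge conjecture for all powers is decided by one class of the second tensor power

Let `X → S` be a smooth projective family, `V = ℚ ^ ι` the cohomology `H^w` of the members, trivialised
over the universal covering `B` of `S(ℂ)`, with the Hodge structures `S b`, `b ∈ B`, a flat polarization
`Q` and the monodromy `ρ` (`Variation`). For example `X = A` is an abelian scheme and `w = 1`. Let
`alg b n` be the algebraic endomorphisms of `V^{⊗n}` at `b`, given by algebraic cycles on
`X_b^{2n}`; the class of the polarization is supposed to be algebraic (`CycleClasses`; this is the
Lefschetz standard conjecture, which is a theorem for abelian varieties and in the middle degree of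
surfaces and of complete intersections).

The members of `ann P`, for a family `P` of endomorphisms of the tensor powers, are the elements of the
Lie algebra of the group of all `g` such that `g ⊗ ⋯ ⊗ g` commutes with all members of `P`. A class which
is killed by `ann (alg b)`, that is fixed by the identity component of this group, is called weakly
algebraic at `b`. Flat classes are flat over a finite covering of `S`; `C.FlatAlgebraic b` are the
flat classes which are weakly algebraic at `b`. The variational Hodge conjecture from `b` to `b'` (`VHC`)
says that the flat classes which are weakly algebraic at `b` are weakly algebraic at `b'`.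

**Theorem.** Let `b ∈ B`. The orthogonal projector `φ` of `End V` onto the Lie algebra
`ann (C.FlatAlgebraic b)` corresponds to one flat class `tens φ` of `End (V ⊗ V)`, which is weakly
algebraic at `b` and a Hodge class on all members. For all `b' ∈ B` the following are equivalent.

1. The variational Hodge conjecture from `b` to `b'` for all `n` and for all classes which are invariant
   under the skew part of the centre of the algebra of flat endomorphisms (`CentralVHC`).
2. The same for the second tensor power, `n = 2`.
3. The flat endomorphisms of `V` which are weakly algebraic at `b` are weakly algebraic at `b'`, and the
   class `tens φ` is weakly algebraic at `b'`.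
4. `ann (C.FlatAlgebraic b')` is contained in `ann (C.FlatAlgebraic b)` up to a central torus.

If there are no factors of type IV (the centre of the algebra of the flat endomorphisms has no skew
part) then 1 is the variational Hodge conjecture from `b` to `b'` for ALL classes, and if the flat
classes which are weakly algebraic at `b'` are so at `b` (for very general `b'`, as cycles specialise)
then it holds if and only if there are at least as many linearly independent flat weakly algebraic
classes of `V ⊗ V` at `b'` as at `b`.

For an abelian scheme `A` and `V = H¹`, the first part of 3 is a theorem (Lefschetz). So the variational
Hodge conjecture, for all classes of all powers of `A` (which are invariant under the centre for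
factors of type IV), is equivalent to the same for ONE flat class of codimension two on `A⁴`.
In particular it follows from the Hodge conjecture for this class.

Ideas of the proof. The flat weakly algebraic classes at `b` are exactly the classes killed by
`H = ann (C.FlatAlgebraic b)`: a class killed by the annihilator of all flat classes is itself
flat (`isTate_of_killed`, file `D0H93/MT/Grp`, derivations of the field of functions of the Zariski closure
of the monodromy group). As `H` contains the Lie algebra of the Mumford-Tate group at `b` and preserves
`Q` up to factors, it is reductive with nondegenerate trace form. So the projector onto `H`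
exists; it commutes with `H` and with the centre of the algebra of endomorphisms. Let `G ⊇ H` be the
annihilator of the classes which are algebraic at `b` and `b'`. If `G` kills `tens φ` and the flat
endomorphisms, then `G` is the sum of the ideal `H` and a central part, whose elements are in the centre
of the algebra of flat endomorphisms, and skew since their trace is zero.
-/

set_option autoImplicit false

namespace Pool.Agent.Results.MP_e9c0f3_ag.OneClassDecides

open Pool.Agent.D0H93.MT Pool.Agent.D0H93.VH

/-- **One class decides the variational Hodge conjecture.** -/
theorem result {ι : Type} [Fintype ι] [DecidableEq ι] [Nonempty ι] {w : ℤ} {B Γ : Type} [Group Γ]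
    {V : Variation ι w B Γ} (C : CycleClasses V) (b : B) :
    ∃ φ, IsProjector (ann (C.FlatAlgebraic b)) φ ∧ C.FlatAlgebraic b 2 (tens φ) ∧
      C.CentreInvariant b 2 (tens φ) ∧ ∀ b',
      (V.S b').IsHodge 2 (tens φ) ∧
      [∀ n, C.CentralVHC b b' n, C.CentralVHC b b' 2,
        C.VHC b b' 1 ∧ C.WeaklyAlgebraic b' 2 (tens φ),
        ∀ x ∈ ann (C.FlatAlgebraic b'), ∃ y ∈ ann (C.FlatAlgebraic b),
          ∃ z, C.SkewCentral b z ∧ x = y + z].TFAE ∧
      (NoTypeIV (ann (C.FlatAlgebraic b)) V.Q →
        ((∀ n, C.VHC b b' n) ↔ C.VHC b b' 1 ∧ C.WeaklyAlgebraic b' 2 (tens φ)) ∧
        ((∀ c, C.FlatAlgebraic b' 2 c → C.FlatAlgebraic b 2 c) →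
          ((∀ n, C.VHC b b' n) ↔ C.dim b 2 ≤ C.dim b' 2))) :=
  main C b

end Pool.Agent.Results.MP_e9c0f3_ag.OneClassDecides
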