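import Pool.Agent.D0H93.VH.Helly

/-!
# Test members for the variational Hodge conjecture

Let `X → S` be a smooth projective family, `V = ℚ ^ ι` the cohomology `H^w` of the members, trivialised
over the universal covering `B` of `S(ℂ)`, with the Hodge structures `S b`, a flat polarization `Q` and
the monodromy `ρ` (`Variation`), and let `alg b n` be the algebraic endomorphisms of `V^{⊗n}` at
`b ∈ B`, given by algebraic cycles on `X_b^{2n}` (`CycleClasses`; the class of the polarization is
supposed to be algebraic, which is a theorem for `H¹` of abelian schemes).

For a set `T ⊆ B` let `C.On T n` be the endomorphisms of `V^{⊗n}` which are flat on a finite covering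
of `S`, are Hodge classes and are weakly algebraic on ALL members in `T` (fixed by the identity
component of the group which fixes all algebraic classes).

The variational Hodge conjecture says that ONE member, chosen arbitrarily, decides about the
algebraicity of all flat Hodge classes on all members: `On {b} = On X` for `b ∈ X`. Without the
conjecture one has to look, for each of the infinitely many flat Hodge classes `c` on the powers of the
family, at all members in `X`. If `X` is the whole base then one very general member suffices, but
nothing is known if `X` is an arbitrary set of members (the members defined over `ℚ-bar`, the
ones with complex multiplication, a Hecke orbit, ...), as the locus of the algebraicity of `c` is only a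
countable union of closed subvarieties, which may depend on `c`.

**Theorem.** Let `d = dim V`. Each set `X` of members contains a set `T` of at most `d (d + 1) / 2` members,
more precisely at most `dim ann (On X) - dim ann (FlatHodge)`, such that for ALL `n` and all classes `c` of
`End(V^{⊗n})`: `c` is flat and weakly algebraic on the members in `T` if and only if it is flat and weakly
algebraic on all members in `X`. For abelian schemes of relative dimension `g` these are at most
`g (2g + 1)` test members in each set `X`, for all Hodge classes on all powers at the same time.

There is no hypothesis on the endomorphisms or the centre, in contrast to `FinitelyManyTypes`, and the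
number of the test members depends only on the rank.

Ideas of the proof. The classes in `On T` are exactly the ones which are killed by the Lie algebra
`ann (On T)` (the double annihilator theorem `on_iff`), and `ann (On T)` grows with `T`. It is contained
in the Lie algebra of the similitudes of the form of the polarization, whose dimension is at most
`d (d + 1) / 2 + 1` (`x ↦ (Q x + (Q x)ᵀ` and the multiplier`)`), since the weakly algebraic classes contain
the class of the polarization; and it contains the homotheties of `ann (FlatHodge)`. A greedy choice
of the members gives `T`.
-/

set_option autoImplicit false

namespace Pool.Agent.Results.MP_e9c0f3_ag.TestMembers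

open Pool.Agent.D0H93.MT Pool.Agent.D0H93.VH Module

/-- **Test members for the variational Hodge conjecture.** -/
theorem result {ι : Type} [Fintype ι] [DecidableEq ι] [Nonempty ι] {w : ℤ} {B Γ : Type} [Group Γ]
    [Nonempty B] {V : Variation ι w B Γ} (C : CycleClasses V) (X : Set B) :
    ∃ T : Finset B, (T : Set B) ⊆ X ∧
      T.card + finrank ℚ (ann (FlatHodge V)) ≤ finrank ℚ (ann (C.On X)) ∧
      T.card ≤ (Fintype.card ι + 1).choose 2 ∧
      ∀ n (c : Matrix (Fin n → ι) (Fin n → ι) ℚ), C.On (T : Set B) n c ↔ C.On X n c :=
  helly_main C X

end Pool.Agent.Results.MP_e9c0f3_ag.TestMembers
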