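import Pool.Agent.D0H93.VH.Zero

/-!
# The zero-one law for the variational Hodge conjecture

Let `X → S` be a smooth projective family, `V = ℚ ^ ι` the cohomology `H^w` of the members, trivialised
over the universal covering `B` of `S(ℂ)`, with the Hodge structures `S b`, a flat polarization `Q` and
the monodromy `ρ` (`Variation`), and let `alg b n` be the algebraic endomorphisms of `V^{⊗n}` at
`b ∈ B`, given by algebraic cycles on `X_b^{2n}` (`CycleClasses`; the class of the polarization is
supposed to be algebraic, which is a theorem for `H¹` of abelian schemes).

For a set `T ⊆ B` let `C.On T n` be the endomorphisms of `V^{⊗n}` which are flat on a finite covering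
of `S`, are Hodge classes and are weakly algebraic on ALL members in `T` (fixed by the identity
component of the group which fixes all algebraic classes), and let `C.count T n` be the dimension of
their span. For `T = ∅` these are all flat Hodge classes, for `T = {b}` the flat classes which
are algebraic at `b`, for `T = B` the flat classes which are algebraic on all members.

The variational Hodge conjecture from `T` to `T'` (`VHCOn T T'`) says that the flat classes which are
weakly algebraic on the members in `T` are so on the members in `T'`. For `T = {b}` and `T' = B` this is
the variational Hodge conjecture for the classes on `X_b`; for `T = ∅` it is the Hodge conjecture for the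
flat Hodge classes on the members in `T'`.

**Theorem.** Let `T, T'` be sets of members, `d = dim V`.

1. Let `K ≥ 1`, `q ≥ 0` and let `n ≥ ((K + 2) K q d^{2(Kq + 1)})²` be ONE number such that at least `1/K` of
   the flat classes in `End(V^{⊗n})` which are algebraic on the members in `T` are algebraic on the
   members in `T'` (`count T n ≤ K * count (T ∪ T') n`). Then ALL flat classes in `End(V^{⊗q})` which are
   algebraic on the members in `T` are algebraic on the members in `T'`.
2. (Zero-one law) Either the variational Hodge conjecture from `T` to `T'` holds, for all
   tensor powers, or the proportion of the flat classes, algebraic on the members in `T`, which stay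
   algebraic on the members in `T'`, tends to `0`.
3. If 1 holds for `q = 2` and one `n` then the variational Hodge conjecture from `T` to `T'` holds for all
   tensor powers and all classes which are invariant under the skew centre of the endomorphisms.
   If there are no factors of type IV then the variational Hodge conjecture from `T` to `T'`, for all
   classes and all tensor powers, is equivalent to the ONE inequality.

Ideas of the proof. The classes in `C.On T` are the classes killed by `H = ann (C.On T)`
(`on_iff`; derivations of the field of functions of the Zariski closure of the monodromy group). Let
`N = ann (C.On (T ∪ T')) ⊇ H`. If a class of `End(V^{⊗q})` is killed by `H` and not by `N`, then its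
tensor powers produce, for all `n`, more than `K` times as many classes killed by `H` as by `N`; the
proof of D0H78/LG bounds the multiplicities of the trivial representation of `N` by a Cauchy-Schwarz
inequality for the ranks of the bilinear forms of invariants, and uses only that the trace form
on the endomorphisms killed by `N` is nondegenerate, which follows from the polarization. If `H` and `N`
kill the same classes of the second tensor power then the orthogonal projector onto `H` is `N`-equivariant,
so `N` is the sum of the ideal `H` and a central part.
-/

set_option autoImplicit false

namespace Pool.Agent.Results.MP_e9c0f3_ag.ZeroOneLaw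

open Pool.Agent.D0H93.MT Pool.Agent.D0H93.VH Filter Topology

/-- **The zero-one law for the variational Hodge conjecture.** -/
theorem result {ι : Type} [Fintype ι] [DecidableEq ι] [Nonempty ι] {w : ℤ} {B Γ : Type} [Group Γ]
    [Nonempty B] {V : Variation ι w B Γ} (C : CycleClasses V) (T T' : Set B) :
    (∀ K n q : ℕ, 1 ≤ K → place (Fintype.card ι) q K ≤ n →
      C.count T n ≤ K * C.count (T ∪ T') n → C.VHCOn T T' q) ∧
    ((∀ n, C.VHCOn T T' n) ∨
      Tendsto (fun n => (C.count (T ∪ T') n : ℝ) / C.count T n) atTop (𝓝 0)) ∧
    (∀ K n : ℕ, 1 ≤ K → place (Fintype.card ι) 2 K ≤ n →
      (C.count T n ≤ K * C.count (T ∪ T') n → ∀ k c, C.On T k c →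
        (∀ z, SkewCentre (C.On T) V.Q z → Kills z c) → C.On T' k c) ∧
      (NoTypeIV (ann (C.On T)) V.Q →
        ((∀ k, C.VHCOn T T' k) ↔ C.count T n ≤ K * C.count (T ∪ T') n))) :=
  zero_main C T T'

end Pool.Agent.Results.MP_e9c0f3_ag.ZeroOneLaw
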